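import Mathlib

set_option autoImplicit false

/-!
# Elimination distance to flips with small components: set form
-/

namespace Pool.Agent.Q109.ED

open Set

/-- the flipped graph -/
def flp {U : Type} {r : ℕ} (K : SimpleGraph U) (f : U → Fin r) (P : Set (Sym2 (Fin r))) :
    SimpleGraph U where
  Adj x y := x ≠ y ∧ (K.Adj x y ↔ s(f x, f y) ∉ P)
  symm := ⟨fun x y h => ⟨h.1.symm, by rw [K.adj_comm, Sym2.eq_swap]; exact h.2⟩⟩
  loopless := ⟨fun _ h => h.1 rfl⟩

/-- `S` is connected or empty: a nonempty part of `S` which is closed under adjacency is `S` -/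
def cn {U : Type} (K : SimpleGraph U) (S : Set U) : Prop :=
  ∀ A ⊆ S, A.Nonempty → (∀ x ∈ A, ∀ y ∈ S, K.Adj x y → y ∈ A) → S ⊆ A

/-- some flip of `K` with `r + 1` parts has no connected subset of `D` with more than `s`
elements -/
def fb {U : Type} (K : SimpleGraph U) (r s : ℕ) (D : Set U) : Prop :=
  ∃ (f : U → Fin (r + 1)) (P : Set (Sym2 (Fin (r + 1)))),
    ∀ T ⊆ D, T.Finite → cn (flp K f P) T → T.ncard ≤ s

/-- elimination distance at most `d` -/
def ed {U : Type} (K : SimpleGraph U) (r s : ℕ) : ℕ → Set U → Prop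
  | 0, D => fb K r s D
  | d + 1, D => fb K r s D ∨ ∃ v, ∀ E ⊆ D, v ∉ E → cn K E → ed K r s d E

theorem fb_mono {U : Type} {K : SimpleGraph U} {r s : ℕ} {D E : Set U} (h : E ⊆ D)
    (hD : fb K r s D) : fb K r s E := by
  obtain ⟨f, P, h1⟩ := hD
  exact ⟨f, P, fun T hT => h1 T (hT.trans h)⟩

theorem ed_sub {U : Type} {K : SimpleGraph U} {r s : ℕ} (d : ℕ) {D E : Set U} (h : E ⊆ D)
    (hD : ed K r s d D) : ed K r s d E := by
  cases d with
  | zero => exact fb_mono h hD
  | succ d =>
    rcases hD with hD | ⟨v, hv⟩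
    · exact Or.inl (fb_mono h hD)
    · exact Or.inr ⟨v, fun F hF => hv F (hF.trans h)⟩

theorem ed_of_fb {U : Type} {K : SimpleGraph U} {r s : ℕ} (d : ℕ) {D : Set U}
    (hD : fb K r s D) : ed K r s d D := by
  cases d with
  | zero => exact hD
  | succ d => exact Or.inl hD

theorem ed_succ {U : Type} {K : SimpleGraph U} {r s : ℕ} (d : ℕ) :
    ∀ {D : Set U}, ed K r s d D → ed K r s (d + 1) D := by
  induction d with
  | zero => exact fun hD => Or.inl hD
  | succ d ih =>
    intro D hD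
    rcases hD with hD | ⟨v, hv⟩
    · exact Or.inl hD
    · exact Or.inr ⟨v, fun E hE hvE hcE => ih (hv E hE hvE hcE)⟩

/-- images under embeddings of connected sets -/
theorem cn_image {U U' : Type} {K : SimpleGraph U} {K' : SimpleGraph U'} (φ : U → U')
    {S : Set U} (hadj : ∀ x ∈ S, ∀ y ∈ S, (K.Adj x y → K'.Adj (φ x) (φ y))) (h : cn K S) :
    cn K' (φ '' S) := by
  intro A hA hne hcl
  have h1 := h (S ∩ φ ⁻¹' A) inter_subset_left (by
    obtain ⟨a, ha⟩ := hne
    obtain ⟨x, hx, rfl⟩ := hA ha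
    exact ⟨x, hx, ha⟩) (by
    rintro x ⟨hx, hxA⟩ y hy hxy
    exact ⟨hy, hcl _ hxA _ (mem_image_of_mem _ hy) (hadj x hx y hy hxy)⟩)
  rintro _ ⟨x, hx, rfl⟩
  exact (h1 hx).2

theorem cn_of_image {U U' : Type} {K : SimpleGraph U} {K' : SimpleGraph U'} (φ : U → U')
    (hφ : Function.Injective φ)
    {S : Set U} (hadj : ∀ x ∈ S, ∀ y ∈ S, (K'.Adj (φ x) (φ y) → K.Adj x y))
    (h : cn K' (φ '' S)) : cn K S := by
  intro A hA hne hcl
  have h1 := h (φ '' A) (image_mono hA) (hne.image _) (by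
    rintro _ ⟨x, hx, rfl⟩ _ ⟨y, hy, rfl⟩ hxy
    exact mem_image_of_mem _ (hcl x hx y hy (hadj x (hA hx) y hy hxy)))
  intro x hx
  obtain ⟨a, ha, hax⟩ := h1 (mem_image_of_mem _ hx)
  rwa [← hφ hax]

theorem fb_image {U U' : Type} {K : SimpleGraph U} {K' : SimpleGraph U'} (φ : U → U')
    (hφ : Function.Injective φ) {r s : ℕ} {S : Set U}
    (hadj : ∀ x ∈ S, ∀ y ∈ S, (K.Adj x y ↔ K'.Adj (φ x) (φ y))) :
    fb K r s S ↔ fb K' r s (φ '' S) := by
  constructor
  · rintro ⟨f, P, h⟩
    classical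
    refine ⟨fun y => if h : ∃ x, φ x = y then f h.choose else 0, P, ?_⟩
    have hf : ∀ x, (fun y => if h : ∃ x, φ x = y then f h.choose else 0) (φ x) = f x := by
      intro x
      have h1 : ∃ z, φ z = φ x := ⟨x, rfl⟩
      simp only [dif_pos h1]
      rw [hφ h1.choose_spec]
    intro T hT hfin hc
    obtain ⟨T', hT', rfl⟩ : ∃ T', T' ⊆ S ∧ φ '' T' = T :=
      ⟨S ∩ φ ⁻¹' T, inter_subset_left, by
        rw [image_inter_preimage]; exact inter_eq_right.mpr hT⟩
    rw [ncard_image_of_injective _ hφ]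
    refine h T' hT' (hfin.of_finite_image hφ.injOn) (cn_of_image φ hφ ?_ hc)
    rintro x hx y hy ⟨h1, h2⟩
    refine ⟨fun h => h1 (by rw [h]), ?_⟩
    rw [hadj x (hT' hx) y (hT' hy), h2, hf, hf]
  · rintro ⟨f, P, h⟩
    refine ⟨f ∘ φ, P, fun T hT hfin hc => ?_⟩
    rw [← ncard_image_of_injective _ hφ]
    refine h _ (image_mono hT) (hfin.image _) (cn_image φ ?_ hc)
    rintro x hx y hy ⟨h1, h2⟩
    refine ⟨fun h => h1 (hφ h), ?_⟩
    rw [← hadj x (hT hx) y (hT hy), h2]
    rfl

theorem ed_image {U U' : Type} {K : SimpleGraph U} {K' : SimpleGraph U'} (φ : U → U')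
    (hφ : Function.Injective φ) {r s : ℕ} (d : ℕ) : ∀ {S : Set U},
    (∀ x ∈ S, ∀ y ∈ S, (K.Adj x y ↔ K'.Adj (φ x) (φ y))) →
    (ed K r s d S ↔ ed K' r s d (φ '' S)) := by
  induction d with
  | zero => exact fun hadj => fb_image φ hφ hadj
  | succ d ih =>
    intro S hadj
    constructor
    · rintro (h | ⟨v, hv⟩)
      · exact Or.inl ((fb_image φ hφ hadj).mp h)
      · refine Or.inr ⟨φ v, fun E hE hvE hcE => ?_⟩
        obtain ⟨T', hT', rfl⟩ : ∃ T', T' ⊆ S ∧ φ '' T' = E :=
          ⟨S ∩ φ ⁻¹' E, inter_subset_left, by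
            rw [image_inter_preimage]; exact inter_eq_right.mpr hE⟩
        rw [← ih (fun x hx y hy => hadj x (hT' hx) y (hT' hy))]
        refine hv T' hT' (fun h => hvE (mem_image_of_mem _ h)) (cn_of_image φ hφ ?_ hcE)
        exact fun x hx y hy => (hadj x (hT' hx) y (hT' hy)).mpr
    · rintro (h | ⟨v, hv⟩)
      · exact Or.inl ((fb_image φ hφ hadj).mpr h)
      · by_cases hvr : ∃ u, φ u = v
        · obtain ⟨u, rfl⟩ := hvr
          refine Or.inr ⟨u, fun E hE hvE hcE => ?_⟩
          rw [ih (fun x hx y hy => hadj x (hE hx) y (hE hy))]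
          refine hv _ (image_mono hE) ?_ (cn_image φ ?_ hcE)
          · rintro ⟨x, hx, h⟩
            exact hvE (hφ h ▸ hx)
          · exact fun x hx y hy => (hadj x (hE hx) y (hE hy)).mp
        · push Not at hvr
          rcases isEmpty_or_nonempty U with hU | ⟨⟨u⟩⟩
          · left
            refine ⟨fun _ => 0, ∅, fun T _ _ _ => ?_⟩
            have : T = ∅ := Set.eq_empty_of_isEmpty T
            rw [this, ncard_empty]
            exact Nat.zero_le _
          · refine Or.inr ⟨u, fun E hE hvE hcE => ?_⟩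
            rw [ih (fun x hx y hy => hadj x (hE hx) y (hE hy))]
            refine hv _ (image_mono hE) ?_ (cn_image φ ?_ hcE)
            · rintro ⟨x, hx, h⟩
              exact hvr x h
            · exact fun x hx y hy => (hadj x (hE hx) y (hE hy)).mp

/-- few large connected pieces which are not joined to each other: three pieces whose chosen
adjacent pairs have the same labels are impossible -/
theorem thin {U : Type} {K : SimpleGraph U} {r s m : ℕ} {D : Set U} (hD : D.Finite)
    (h : fb K r s D) (S : Fin m → Set U) (hS : ∀ i, S i ⊆ D) (hc : ∀ i, cn K (S i))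
    (hs : ∀ i, s < (S i).ncard)
    (hsep : ∀ i j, i ≠ j → ∀ x ∈ S i, ∀ y ∈ S j, x ≠ y ∧ ¬ K.Adj x y) :
    m ≤ 2 * ((r + 1) * (r + 1)) := by
  classical
  obtain ⟨f, P, hf⟩ := h
  -- the relation: joined inside `D` in the flipped graph
  let R : U → U → Prop := Relation.ReflTransGen (fun a b => a ∈ D ∧ b ∈ D ∧ (flp K f P).Adj a b)
  have Rsymm : ∀ a b, R a b → R b a := by
    intro a b hab
    induction hab with
    | refl => exact Relation.ReflTransGen.refl
    | tail h1 h2 ih => exact Relation.ReflTransGen.head ⟨h2.2.1, h2.1, h2.2.2.symm⟩ ih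
  have hclass : ∀ x ∈ D, {y | y ∈ D ∧ R x y}.ncard ≤ s := by
    intro x hx
    refine hf _ (fun y hy => hy.1) (hD.subset (fun y hy => hy.1)) ?_
    intro A hA hne hcl
    obtain ⟨a, ha⟩ := hne
    have haD := (hA ha).1
    have hxa := (hA ha).2
    rintro y ⟨hy, hxy⟩
    have hay : R a y := (Rsymm _ _ hxa).trans hxy
    have : ∀ z, R a z → z ∈ A := by
      intro z hz
      induction hz with
      | refl => exact ha
      | tail h1 h2 ih =>
        exact hcl _ ih _ ⟨h2.2.1, hxa.trans (h1.tail h2)⟩ h2.2.2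
    exact this y hay
  have hex : ∀ i, ∃ u ∈ S i, ∃ v ∈ S i, K.Adj u v ∧ ¬ R u v := by
    intro i
    by_contra hcon
    push Not at hcon
    have hne : (S i).Nonempty := by
      by_contra hne
      rw [not_nonempty_iff_eq_empty] at hne
      have := hs i
      rw [hne, ncard_empty] at this
      omega
    obtain ⟨x, hx⟩ := hne
    have h1 := hc i {y | y ∈ S i ∧ R x y} (fun y hy => hy.1) ⟨x, hx, Relation.ReflTransGen.refl⟩
      (by
        rintro a ⟨ha, hxa⟩ b hb hab
        exact ⟨hb, hxa.trans (hcon a ha b hb hab)⟩)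
    have h2 : (S i).ncard ≤ {y | y ∈ D ∧ R x y}.ncard :=
      ncard_le_ncard (fun y hy => ⟨hS i hy, (h1 hy).2⟩) (hD.subset (fun y hy => hy.1))
    have := hclass x (hS i hx)
    have := hs i
    omega
  choose u hu v hv huv hR using hex
  -- the pair of labels of `u i`, `v i` is in `P`
  have hP : ∀ i, s(f (u i), f (v i)) ∈ P := by
    intro i
    by_contra hcon
    exact hR i (Relation.ReflTransGen.single ⟨hS i (hu i), hS i (hv i), (huv i).ne,
      ⟨fun _ => hcon, fun _ => huv i⟩⟩)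
  by_contra hlt
  push Not at hlt
  obtain ⟨c, -, hc⟩ := Finset.exists_lt_card_fiber_of_mul_lt_card_of_maps_to
    (s := (Finset.univ : Finset (Fin m)))
    (t := (Finset.univ : Finset (Fin (r + 1) × Fin (r + 1))))
    (f := fun i => (f (u i), f (v i))) (n := 2) (fun _ _ => Finset.mem_univ _)
    (by simp; omega)
  rw [Finset.two_lt_card] at hc
  obtain ⟨i, hi, j, hj, k, hk, hij, hik, hjk⟩ := hc
  simp only [Finset.mem_filter, Finset.mem_univ, true_and] at hi hj hk
  have step : ∀ a b : Fin m, a ≠ b → (f (u a), f (v a)) = c → (f (u b), f (v b)) = c →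
      R (u a) (v b) := by
    intro a b hab ha hb
    obtain ⟨h1, h2⟩ := hsep a b hab (u a) (hu a) (v b) (hv b)
    refine Relation.ReflTransGen.single ⟨hS a (hu a), hS b (hv b), h1, ?_⟩
    have h3 : f (v b) = f (v a) := by
      have := ha.trans hb.symm
      exact (congrArg Prod.snd this).symm
    rw [h3]
    exact ⟨fun h => absurd h h2, fun h => absurd (hP a) h⟩
  apply hR i
  exact ((step i j hij hi hj).trans (Rsymm _ _ (step k j hjk.symm hk hj))).trans
    (step k i hik.symm hk hi)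

end Pool.Agent.Q109.ED
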