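import Pool.Agent.Q109.ED.Union

set_option autoImplicit false
set_option linter.unusedSectionVars false

/-!
# The induction on the elimination distance
-/

namespace Pool.Agent.Q109.ED

open Pool.Agent.Y400.Rec Pool.Agent.H234RC
open Finset Classical

variable {V : Type} [Fintype V]

theorem exists_t (z : ℕ) : ∃ t : ℕ, 2 * (z.factorial : ℝ) < (3 / 2 : ℝ) ^ t :=
  pow_unbounded_of_one_lt _ (by norm_num)

theorem star_conn (G : SimpleGraph V) (Z : Finset V) (x : V) (ℰ : Finset (Finset V))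
    (hℰ : ∀ D ∈ ℰ, Cmp G Z D) (hadj : ∀ D ∈ ℰ, ∃ y ∈ D, G.Adj x y) :
    (G.induce ((insert x (ℰ.biUnion id) : Finset V) : Set V)).Connected := by
  apply connected_of_cn G _ ⟨x, by simp⟩
  have h1 := cn_star G x (fun D : ℰ => ((D : Finset V) : Set V))
    (fun D => cn_of_connected G _ (hℰ D D.2).1)
    (fun D => by
      obtain ⟨y, hy, h⟩ := hadj D D.2
      exact ⟨y, Finset.mem_coe.mpr hy, h⟩)
  have h2 : ((insert x (ℰ.biUnion id) : Finset V) : Set V) =
      insert x (⋃ D : ℰ, ((D : Finset V) : Set V)) := by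
    ext y
    simp
  rw [h2]
  exact h1

theorem base (r z : ℕ) : ∃ C : ℝ, ∀ (s : ℕ) (V : Type) [Fintype V] (G : SimpleGraph V)
    (Z : Finset V), Z.card ≤ z → (∀ D : Finset V, Cmp G Z D → ed G r s 0 (D : Set V)) →
    C * (((s : ℝ) + 1) ^ 3 * Real.log ((s : ℝ) + 2) ^ 2) ≤ (Fintype.card V : ℝ) →
    Reconstructible G ∧ Reconstructible Gᶜ := by
  obtain ⟨t, ht⟩ := exists_t z
  set R := 2 * ((r + 1) * (r + 1)) + 1 with hR
  set B := t ^ 2 + z * (R * (3 * z + 1)) with hB
  obtain ⟨C, -, hC⟩ := Pool.Agent.TH403.FLP.final z (B * (r + 1) + 1)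
  refine ⟨C, fun s V _ G Z hZ hed hV => ?_⟩
  -- the large components
  set 𝒟 : Finset (Finset V) := univ.filter (fun D => Cmp G Z D ∧ s < D.card) with h𝒟
  have hm𝒟 : ∀ D, D ∈ 𝒟 ↔ Cmp G Z D ∧ s < D.card := by
    intro D
    simp [h𝒟]
  have ht' : 2 * (Z.card.factorial : ℝ) < (3 / 2 : ℝ) ^ t := by
    have h1 : (Z.card.factorial : ℝ) ≤ (z.factorial : ℝ) := by
      exact_mod_cast Nat.factorial_le hZ
    linarith
  by_cases hmany : t ^ 2 + Z.card * (R * (3 * Z.card + 1)) ≤ 𝒟.card
  · refine fam_form G (fun U K => K.Connected ∧ ∃ S : Fin R → Set U, (∀ i, cn K (S i)) ∧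
      (∀ i, s < (S i).ncard) ∧ ∀ i j, i ≠ j → ∀ x ∈ S i, ∀ y ∈ S j, x ≠ y ∧ ¬ K.Adj x y) ?_
      Z 𝒟 R t (fun D hD => ((hm𝒟 D).mp hD).1) ?_ ?_ ht' hmany
    · rintro U U' K K' ⟨h1, S, h2, h3, h4⟩ ⟨f⟩
      refine ⟨f.connected_iff.mp h1, fun i => f '' (S i), ?_, ?_, ?_⟩
      · intro i
        exact cn_image f (fun x _ y _ h => f.map_rel_iff.mpr h) (h2 i)
      · intro i
        rw [Set.ncard_image_of_injective _ f.injective]
        exact h3 i
      · rintro i j hij _ ⟨x, hx, rfl⟩ _ ⟨y, hy, rfl⟩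
        obtain ⟨h5, h6⟩ := h4 i j hij x hx y hy
        exact ⟨fun h => h5 (f.injective h), fun h => h6 (f.map_rel_iff.mp h)⟩
    · rintro P ⟨h1, S, h2, h3, h4⟩
      by_contra hcon
      push Not at hcon
      obtain ⟨D, hD, hPD⟩ := conn_sub G Z P h1 hcon
      have h5 : fb G r s (D : Set V) := hed D hD
      have h6 := thin (D.finite_toSet) h5 (fun i => Subtype.val '' (S i)) ?_ ?_ ?_ ?_
      · omega
      · rintro i _ ⟨y, hy, rfl⟩
        exact Finset.mem_coe.mpr (hPD (Finset.mem_coe.mp y.2))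
      · intro i
        exact cn_image Subtype.val (fun x _ y _ h => h) (h2 i)
      · intro i
        rw [Set.ncard_image_of_injective _ Subtype.val_injective]
        exact h3 i
      · rintro i j hij _ ⟨x, hx, rfl⟩ _ ⟨y, hy, rfl⟩
        obtain ⟨h7, h8⟩ := h4 i j hij x hx y hy
        exact ⟨fun h => h7 (Subtype.ext h), h8⟩
    · intro x hxZ ℰ hℰ hc hadj
      have hℰ' : ∀ D ∈ ℰ, Cmp G Z D := fun D hD => ((hm𝒟 D).mp (hℰ hD)).1
      refine ⟨insert x (ℰ.biUnion id), mem_insert_self _ _, le_rfl,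
        star_conn G Z x ℰ hℰ' hadj, ?_⟩
      let e : ℰ ≃ Fin R := ℰ.equivFinOfCardEq hc
      have him : ∀ i : Fin R, (Subtype.val '' {y : {x_1 // x_1 ∈
          ((insert x (ℰ.biUnion id) : Finset V) : Set V)} | (y : V) ∈ ((e.symm i : ℰ) : Finset V)}) =
          (((e.symm i : ℰ) : Finset V) : Set V) := by
        intro i
        ext y
        constructor
        · rintro ⟨w, hw, rfl⟩
          exact hw
        · intro hy
          refine ⟨⟨y, ?_⟩, hy, rfl⟩
          rw [Finset.mem_coe, mem_insert, mem_biUnion]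
          exact Or.inr ⟨_, (e.symm i).2, hy⟩
      refine ⟨fun i => {y | (y : V) ∈ ((e.symm i : ℰ) : Finset V)}, ?_, ?_, ?_⟩
      · intro i
        refine cn_of_image (K' := G) Subtype.val Subtype.val_injective (fun x _ y _ h => h) ?_
        rw [him i]
        exact cn_of_connected G _ (hℰ' _ (e.symm i).2).1
      · intro i
        rw [← Set.ncard_image_of_injective _ Subtype.val_injective, him i,
          Set.ncard_coe_finset]
        exact ((hm𝒟 _).mp (hℰ (e.symm i).2)).2
      · intro i j hij u hu v hv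
        have hu' : (u : V) ∈ ((e.symm i : ℰ) : Finset V) := hu
        have hv' : (v : V) ∈ ((e.symm j : ℰ) : Finset V) := hv
        have hne : ((e.symm i : ℰ) : Finset V) ≠ ((e.symm j : ℰ) : Finset V) := by
          intro h
          exact hij (e.symm.injective (Subtype.ext h))
        refine ⟨?_, ?_⟩
        · rintro rfl
          exact hne (cmp_disj G Z _ _ (hℰ' _ (e.symm i).2) (hℰ' _ (e.symm j).2) u hu' hv')
        · intro h
          have h' : G.Adj (u : V) (v : V) := h
          rcases (hℰ' _ (e.symm i).2).2.2 u hu' v h' with h9 | h9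
          · exact hne (cmp_disj G Z _ _ (hℰ' _ (e.symm i).2) (hℰ' _ (e.symm j).2) v h9 hv')
          · exact (hℰ' _ (e.symm j).2).2.1 v hv' h9
  · push Not at hmany
    have hle : 𝒟.card ≤ B := by
      have h1 : Z.card * (R * (3 * Z.card + 1)) ≤ z * (R * (3 * z + 1)) := by gcongr
      omega
    obtain ⟨f, P, hfP⟩ := union_flip G Z r s B 𝒟
      (fun D hD => ⟨((hm𝒟 D).mp hD).1, hed D ((hm𝒟 D).mp hD).1⟩) hle (by
        intro D hD hDn
        by_contra hlt
        push Not at hlt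
        exact hDn ((hm𝒟 D).mpr ⟨hD, hlt⟩))
    exact hC s V G (flp G f P) Z f P (fun _ _ => Iff.rfl) hZ hfP hV

theorem step (r d : ℕ) : ∀ z : ℕ, ∃ C : ℝ, ∀ (s : ℕ) (V : Type) [Fintype V] (G : SimpleGraph V)
    (Z : Finset V), Z.card ≤ z → (∀ D : Finset V, Cmp G Z D → ed G r s d (D : Set V)) →
    C * (((s : ℝ) + 1) ^ 3 * Real.log ((s : ℝ) + 2) ^ 2) ≤ (Fintype.card V : ℝ) →
    Reconstructible G ∧ Reconstructible Gᶜ := by
  induction d with
  | zero => exact base r
  | succ d ih =>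
    intro z
    obtain ⟨t, ht⟩ := exists_t z
    set B := t ^ 2 + z * (2 * (3 * z + 1)) with hB
    obtain ⟨C, hC⟩ := ih (z + B)
    refine ⟨C, fun s V _ G Z hZ hed hV => ?_⟩
    set 𝒟 : Finset (Finset V) :=
      univ.filter (fun D => Cmp G Z D ∧ ¬ ed G r s d (D : Set V)) with h𝒟
    have hm𝒟 : ∀ D, D ∈ 𝒟 ↔ Cmp G Z D ∧ ¬ ed G r s d (D : Set V) := by
      intro D
      simp [h𝒟]
    have ht' : 2 * (Z.card.factorial : ℝ) < (3 / 2 : ℝ) ^ t := by
      have h1 : (Z.card.factorial : ℝ) ≤ (z.factorial : ℝ) := by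
        exact_mod_cast Nat.factorial_le hZ
      linarith
    have hsubt : ∀ P : Set V, ∀ k, ed (G.induce P) r s k Set.univ ↔ ed G r s k P := by
      intro P k
      rw [ed_image (K' := G) (Subtype.val : P → V) Subtype.val_injective k
        (fun x _ y _ => Iff.rfl)]
      rw [Set.image_univ, Subtype.range_val]
    by_cases hmany : t ^ 2 + Z.card * (2 * (3 * Z.card + 1)) ≤ 𝒟.card
    · refine fam_form G (fun U K => K.Connected ∧ ¬ ed K r s (d + 1) Set.univ) ?_
        Z 𝒟 2 t (fun D hD => ((hm𝒟 D).mp hD).1) ?_ ?_ ht' hmany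
      · rintro U U' K K' ⟨h1, h2⟩ ⟨f⟩
        refine ⟨f.connected_iff.mp h1, fun h3 => h2 ?_⟩
        rw [ed_image (K' := K') f f.injective (d + 1) (fun x _ y _ => f.map_rel_iff.symm)]
        exact ed_sub _ (Set.subset_univ _) h3
      · rintro P ⟨h1, h2⟩
        by_contra hcon
        push Not at hcon
        obtain ⟨D, hD, hPD⟩ := conn_sub G Z P h1 hcon
        exact h2 ((hsubt _ _).mpr (ed_sub _ (Finset.coe_subset.mpr hPD) (hed D hD)))
      · intro x hxZ ℰ hℰ hc hadj
        have hℰ' : ∀ D ∈ ℰ, Cmp G Z D := fun D hD => ((hm𝒟 D).mp (hℰ hD)).1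
        refine ⟨insert x (ℰ.biUnion id), mem_insert_self _ _, le_rfl,
          star_conn G Z x ℰ hℰ' hadj, ?_⟩
        rw [hsubt]
        have hsub : ∀ D ∈ ℰ, (D : Set V) ⊆ ((insert x (ℰ.biUnion id) : Finset V) : Set V) := by
          intro D hD y hy
          rw [Finset.mem_coe, mem_insert, mem_biUnion]
          exact Or.inr ⟨D, hD, hy⟩
        rintro (h1 | ⟨v, hv⟩)
        · obtain ⟨D, hD⟩ := card_pos.mp (by rw [hc]; norm_num : 0 < ℰ.card)
          exact ((hm𝒟 D).mp (hℰ hD)).2 (ed_of_fb d (fb_mono (hsub D hD) h1))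
        · obtain ⟨D1, D2, hne, rfl⟩ := card_eq_two.mp hc
          have h1 : v ∉ D1 ∨ v ∉ D2 := by
            by_contra hcon
            push Not at hcon
            exact hne (cmp_disj G Z D1 D2 (hℰ' D1 (by simp)) (hℰ' D2 (by simp)) v hcon.1 hcon.2)
          rcases h1 with h1 | h1
          · exact ((hm𝒟 D1).mp (hℰ (by simp))).2 (hv _ (hsub D1 (by simp))
              (fun h => h1 (Finset.mem_coe.mp h))
              (cn_of_connected G _ (hℰ' D1 (by simp)).1))
          · exact ((hm𝒟 D2).mp (hℰ (by simp))).2 (hv _ (hsub D2 (by simp))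
              (fun h => h1 (Finset.mem_coe.mp h))
              (cn_of_connected G _ (hℰ' D2 (by simp)).1))
    · push Not at hmany
      have hle : 𝒟.card ≤ B := by
        have h1 : Z.card * (2 * (3 * Z.card + 1)) ≤ z * (2 * (3 * z + 1)) := by gcongr
        omega
      have hex : ∀ D : 𝒟, ∃ v : V, ∀ E ⊆ ((D : Finset V) : Set V), v ∉ E → cn G E →
          ed G r s d E := by
        rintro ⟨D, hD⟩
        obtain ⟨h1, h2⟩ := (hm𝒟 D).mp hD
        rcases hed D h1 with h3 | h3
        · exact absurd (ed_of_fb d h3) h2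
        · exact h3
      choose v hv using hex
      set Z' := Z ∪ univ.image v with hZ'
      have hZ'c : Z'.card ≤ z + B := by
        refine (card_union_le _ _).trans ?_
        have h1 : (univ.image v).card ≤ 𝒟.card := by
          refine card_image_le.trans ?_
          simp
        omega
      refine hC s V G Z' hZ'c ?_ hV
      intro D' hD'
      have h1 : ∀ x ∈ D', x ∉ Z := by
        intro x hx hxZ
        exact hD'.2.1 x hx (mem_union_left _ hxZ)
      obtain ⟨D, hD, hD'D⟩ := conn_sub G Z D' hD'.1 h1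
      by_cases hDm : D ∈ 𝒟
      · refine hv ⟨D, hDm⟩ _ (Finset.coe_subset.mpr hD'D) ?_ (cn_of_connected G _ hD'.1)
        intro h
        exact hD'.2.1 _ (Finset.mem_coe.mp h)
          (mem_union_right _ (mem_image_of_mem v (mem_univ _)))
      · have h2 : ed G r s d (D : Set V) := by
          by_contra hcon
          exact hDm ((hm𝒟 D).mpr ⟨hD, hcon⟩)
        exact ed_sub _ (Finset.coe_subset.mpr hD'D) h2

end Pool.Agent.Q109.ED
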