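import Pool.Agent.Q109.ED.Basic
import Pool.Agent.Y400.Rec.Gen
import Pool.Agent.TH403.FLP.Fin

set_option autoImplicit false
set_option linter.unusedSectionVars false

/-!
# The union of the flips of the components
-/

namespace Pool.Agent.Q109.ED

open Pool.Agent.Y400.Rec Pool.Agent.H234RC
open Finset Classical

variable {V : Type}

theorem cn_of_connected (G : SimpleGraph V) (D : Set V) (h : (G.induce D).Connected) :
    cn G D := by
  rintro A hA ⟨a, ha⟩ hcl y hy
  have h1 := h.preconnected ⟨a, hA ha⟩ ⟨y, hy⟩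
  rw [SimpleGraph.reachable_iff_reflTransGen] at h1
  have key : ∀ z : D, Relation.ReflTransGen (G.induce D).Adj ⟨a, hA ha⟩ z → (z : V) ∈ A := by
    intro z hz
    induction hz with
    | refl => exact ha
    | tail h1 h2 ih => exact hcl _ ih _ (Subtype.property _) h2
  exact key _ h1

theorem connected_of_cn (G : SimpleGraph V) (D : Set V) (hne : D.Nonempty) (h : cn G D) :
    (G.induce D).Connected := by
  have hn : Nonempty D := ⟨⟨hne.choose, hne.choose_spec⟩⟩
  refine SimpleGraph.Connected.mk ?_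
  rintro ⟨x, hx⟩ ⟨y, hy⟩
  have h1 := h {y | ∃ hy : y ∈ D, (G.induce D).Reachable ⟨x, hx⟩ ⟨y, hy⟩}
    (fun y hy => hy.1) ⟨x, hx, SimpleGraph.Reachable.refl _⟩ (by
      rintro a ⟨ha, hxa⟩ b hb hab
      refine ⟨hb, hxa.trans (SimpleGraph.Adj.reachable ?_)⟩
      exact hab) hy
  exact h1.2

theorem cn_star (G : SimpleGraph V) {ι : Type} (x : V) (D : ι → Set V)
    (hD : ∀ i, cn G (D i)) (hx : ∀ i, ∃ y ∈ D i, G.Adj x y) :
    cn G (insert x (⋃ i, D i)) := by
  rintro A hA ⟨a, ha⟩ hcl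
  have key : ∀ i, ∀ a ∈ D i, a ∈ A → D i ⊆ A := by
    intro i a hai haA y hy
    exact (hD i (D i ∩ A) Set.inter_subset_left ⟨a, hai, haA⟩ (by
      rintro u ⟨hu, huA⟩ v hv huv
      exact ⟨hv, hcl u huA v (Or.inr (Set.mem_iUnion.mpr ⟨i, hv⟩)) huv⟩) hy).2
  have hxA : x ∈ A := by
    rcases hA ha with rfl | h
    · exact ha
    · obtain ⟨i, hi⟩ := Set.mem_iUnion.mp h
      obtain ⟨y, hy, hxy⟩ := hx i
      exact hcl y (key i a hi ha hy) x (Or.inl rfl) hxy.symm
  rintro z (rfl | h)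
  · exact hxA
  · obtain ⟨i, hi⟩ := Set.mem_iUnion.mp h
    obtain ⟨y, hy, hxy⟩ := hx i
    exact key i y hy (hcl x hxA y (Or.inr (Set.mem_iUnion.mpr ⟨i, hy⟩)) hxy) hi

variable [Fintype V]

theorem cmp_disj (G : SimpleGraph V) (Z D E : Finset V) (hD : Cmp G Z D) (hE : Cmp G Z E)
    (x : V) (hx : x ∈ D) (hx' : x ∈ E) : D = E := by
  rw [← Pool.Agent.TH87.RVE.comp_of_mem G _ D (cmp_mem G Z D hD) x hx,
    ← Pool.Agent.TH87.RVE.comp_of_mem G _ E (cmp_mem G Z E hE) x hx']

theorem cmp_ex (G : SimpleGraph V) (Z : Finset V) (x : V) (hx : x ∉ Z) :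
    ∃ D, Cmp G Z D ∧ x ∈ D :=
  ⟨_, mem_cmp G Z _ (Pool.Agent.TH87.RVE.comp_mem_comps G _ x (mem_compl.mpr hx)),
    Pool.Agent.TH87.RVE.comp_self G _ x (mem_compl.mpr hx)⟩

/-- a common flip of all components, if only few of them are large -/
theorem union_flip (G : SimpleGraph V) (Z : Finset V) (r s B : ℕ) (ℰ : Finset (Finset V))
    (hℰ : ∀ D ∈ ℰ, Cmp G Z D ∧ fb G r s (D : Set V)) (hB : ℰ.card ≤ B)
    (hsm : ∀ D, Cmp G Z D → D ∉ ℰ → D.card ≤ s) :
    ∃ (f : V → Fin (B * (r + 1) + 1)) (P : Set (Sym2 (Fin (B * (r + 1) + 1)))),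
      ∀ c : ((flp G f P).induce {v | v ∉ Z}).ConnectedComponent, c.supp.ncard ≤ s := by
  -- the data
  have h1 : ∀ D : ℰ, ∃ (f : V → Fin (r + 1)) (P : Set (Sym2 (Fin (r + 1)))),
      ∀ T ⊆ ((D : Finset V) : Set V), T.Finite → cn (flp G f P) T → T.ncard ≤ s :=
    fun D => (hℰ D D.2).2
  choose fD PD hfD using h1
  obtain ⟨ι⟩ : Nonempty (ℰ ↪ Fin B) := by
    rw [Function.Embedding.nonempty_iff_card_le]
    simpa using hB
  -- labels
  have hcardL : Fintype.card (Option (Fin B × Fin (r + 1))) = B * (r + 1) + 1 := by simp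
  let e : Option (Fin B × Fin (r + 1)) ≃ Fin (B * (r + 1) + 1) := Fintype.equivFinOfCardEq hcardL
  let lab : V → Option (Fin B × Fin (r + 1)) := fun v =>
    if h : ∃ D : ℰ, v ∈ (D : Finset V) then some (ι h.choose, fD h.choose v) else none
  have hlab : ∀ (D : ℰ) (v : V), v ∈ (D : Finset V) → lab v = some (ι D, fD D v) := by
    intro D v hv
    have h : ∃ D : ℰ, v ∈ (D : Finset V) := ⟨D, hv⟩
    have h2 : h.choose = D := Subtype.ext (cmp_disj G Z _ _ (hℰ _ h.choose.2).1 (hℰ _ D.2).1 v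
      h.choose_spec hv)
    simp only [lab, dif_pos h]
    rw [h2]
  let Q : Set (Sym2 (Fin (B * (r + 1) + 1))) := {p | ∃ (D : ℰ) (a b : Fin (r + 1)),
    s(a, b) ∈ PD D ∧ p = s(e (some (ι D, a)), e (some (ι D, b)))}
  refine ⟨fun v => e (lab v), Q, fun c => ?_⟩
  -- adjacency inside a member
  have hin : ∀ (D : ℰ) (x y : V), x ∈ (D : Finset V) → y ∈ (D : Finset V) →
      ((flp G (fun v => e (lab v)) Q).Adj x y ↔ (flp G (fD D) (PD D)).Adj x y) := by
    intro D x y hx hy
    have h2 : s(e (lab x), e (lab y)) ∈ Q ↔ s(fD D x, fD D y) ∈ PD D := by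
      rw [hlab D x hx, hlab D y hy]
      constructor
      · rintro ⟨D', a, b, hab, h3⟩
        rw [Sym2.eq_iff] at h3
        rcases h3 with ⟨h4, h5⟩ | ⟨h4, h5⟩
        · have h4' := e.injective h4
          have h5' := e.injective h5
          simp only [Option.some.injEq, Prod.mk.injEq, EmbeddingLike.apply_eq_iff_eq] at h4' h5'
          obtain ⟨rfl, rfl⟩ := h4'
          obtain ⟨-, rfl⟩ := h5'
          exact hab
        · have h4' := e.injective h4
          have h5' := e.injective h5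
          simp only [Option.some.injEq, Prod.mk.injEq, EmbeddingLike.apply_eq_iff_eq] at h4' h5'
          obtain ⟨rfl, rfl⟩ := h4'
          obtain ⟨-, rfl⟩ := h5'
          rw [Sym2.eq_swap]
          exact hab
      · intro h
        exact ⟨D, _, _, h, rfl⟩
    show (x ≠ y ∧ (G.Adj x y ↔ s(e (lab x), e (lab y)) ∉ Q)) ↔
      (x ≠ y ∧ (G.Adj x y ↔ s(fD D x, fD D y) ∉ PD D))
    rw [h2]
  -- adjacency outside
  have hout : ∀ (x y : V), (¬ ∃ D : ℰ, x ∈ (D : Finset V) ∧ y ∈ (D : Finset V)) →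
      ((flp G (fun v => e (lab v)) Q).Adj x y ↔ G.Adj x y) := by
    intro x y hxy
    have h2 : s(e (lab x), e (lab y)) ∉ Q := by
      rintro ⟨D, a, b, hab, h3⟩
      have hmem : ∀ v c, e (lab v) = e (some (ι D, c)) → v ∈ (D : Finset V) := by
        intro v c h
        have h' := e.injective h
        by_cases hv : ∃ D : ℰ, v ∈ (D : Finset V)
        · have hv' := hlab _ v hv.choose_spec
          rw [hv'] at h'
          simp only [Option.some.injEq, Prod.mk.injEq, EmbeddingLike.apply_eq_iff_eq] at h'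
          rw [← h'.1]
          exact hv.choose_spec
        · simp only [lab, dif_neg hv] at h'
          exact absurd h' (by simp)
      rw [Sym2.eq_iff] at h3
      rcases h3 with ⟨h4, h5⟩ | ⟨h4, h5⟩
      · exact hxy ⟨D, hmem x _ h4, hmem y _ h5⟩
      · exact hxy ⟨D, hmem x _ h4, hmem y _ h5⟩
    show (x ≠ y ∧ (G.Adj x y ↔ s(e (lab x), e (lab y)) ∉ Q)) ↔ G.Adj x y
    constructor
    · rintro ⟨-, h⟩
      exact h.mpr h2
    · intro h
      exact ⟨h.ne, ⟨fun _ => h2, fun _ => h⟩⟩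
  -- the set of the component
  obtain ⟨⟨x, hx⟩, rfl⟩ := c.exists_rep
  have hx' : x ∉ Z := hx
  obtain ⟨D, hD, hxD⟩ := cmp_ex G Z x hx'
  set K := flp G (fun v => e (lab v)) Q with hK
  have hstep : ∀ a b, a ∈ D → b ∉ Z → K.Adj a b → b ∈ D := by
    intro a b ha hb hab
    by_cases h : ∃ E : ℰ, a ∈ (E : Finset V) ∧ b ∈ (E : Finset V)
    · obtain ⟨E, haE, hbE⟩ := h
      rwa [cmp_disj G Z D E hD (hℰ E E.2).1 a ha haE]
    · have h3 := (hout a b h).mp hab
      rcases hD.2.2 a ha b h3 with h4 | h4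
      · exact h4
      · exact absurd h4 hb
  set c : (K.induce {v | v ∉ Z}).ConnectedComponent :=
    (K.induce {v | v ∉ Z}).connectedComponentMk ⟨x, hx⟩ with hc
  have hsub : ∀ y ∈ c.supp, (y : V) ∈ D := by
    intro y hy
    rw [SimpleGraph.ConnectedComponent.mem_supp_iff, hc, SimpleGraph.ConnectedComponent.eq] at hy
    have hy' := hy.symm
    rw [SimpleGraph.reachable_iff_reflTransGen] at hy'
    induction hy' with
    | refl => exact hxD
    | tail h1 h2 ih =>
      rename_i b c'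
      have hb : b ∈ c.supp ∧ (b : V) ∈ D := by
        have h5 : (K.induce {v | v ∉ Z}).Reachable ⟨x, hx⟩ b := by
          rw [SimpleGraph.reachable_iff_reflTransGen]; exact h1
        exact ⟨SimpleGraph.ConnectedComponent.sound h5.symm, ih h5.symm⟩
      exact hstep _ _ hb.2 c'.2 h2
  have hcs : (Subtype.val '' c.supp).ncard = c.supp.ncard :=
    Set.ncard_image_of_injective _ Subtype.val_injective
  show c.supp.ncard ≤ s
  rw [← hcs]
  have hT : (Subtype.val '' c.supp : Set V) ⊆ (D : Set V) := by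
    rintro _ ⟨y, hy, rfl⟩
    exact hsub y hy
  by_cases hDE : D ∈ ℰ
  · refine hfD ⟨D, hDE⟩ _ hT (Set.toFinite _) ?_
    have h5 : cn K (Subtype.val '' c.supp) := by
      rintro A hA ⟨a, ha⟩ hcl
      obtain ⟨a', ha', rfl⟩ := hA ha
      have key : ∀ z : {v | v ∉ Z}, Relation.ReflTransGen (K.induce {v | v ∉ Z}).Adj a' z →
          (z : V) ∈ A := by
        intro z hz
        induction hz with
        | refl => exact ha
        | tail h1 h2 ih =>
          rename_i b c'
          refine hcl _ ih _ ⟨_, ?_, rfl⟩ h2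
          rw [SimpleGraph.ConnectedComponent.mem_supp_iff] at ha' ⊢
          rw [← ha']
          apply SimpleGraph.ConnectedComponent.sound
          refine SimpleGraph.Reachable.symm ?_
          rw [SimpleGraph.reachable_iff_reflTransGen]
          exact h1.tail h2
      rintro _ ⟨y, hy, rfl⟩
      apply key
      rw [← SimpleGraph.reachable_iff_reflTransGen]
      apply SimpleGraph.ConnectedComponent.exact
      rw [SimpleGraph.ConnectedComponent.mem_supp_iff] at ha' hy
      rw [ha', hy]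
    intro A hA hne hcl
    refine h5 A hA hne ?_
    intro u hu v hv huv
    refine hcl u hu v hv ?_
    exact (hin ⟨D, hDE⟩ u v (hT (hA hu)) (hT hv)).mp huv
  · have h5 := hsm D hD hDE
    refine le_trans (Set.ncard_le_ncard hT (Set.toFinite _)) ?_
    rw [Set.ncard_coe_finset]
    exact h5

end Pool.Agent.Q109.ED
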